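import Mathlib
import Pool.Agent.Helper36.Disk.Defs

/-! # Packet W: the wedge integral is nonnegative -/

open MeasureTheory Set Metric Filter Topology
open Pool.Agent.Helper36.Disk

namespace Pool.Agent.Helper96.Disk

/-- One-dimensional lemma. -/
theorem one_dim {χ : ℝ → ℝ} (hc : Continuous χ) (hs : HasCompactSupport χ) (h0 : ∀ u, 0 ≤ χ u)
    {s₁ s₂ : ℝ} (hle : s₁ ≤ s₂) {L : ℝ → ℝ} (hL : Monotone L) :
    0 ≤ ∫ u, (χ (u - s₂) - χ (u - s₁)) * L u := by
  have key : ∀ s : ℝ, Integrable (fun u => χ (u - s) * L u) := by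
    intro s
    have h1 : Continuous (fun u => χ (u - s)) := hc.comp (continuous_id.sub continuous_const)
    have h2 : HasCompactSupport (fun u => χ (u - s)) := by
      have := hs.comp_homeomorph (Homeomorph.addRight (-s))
      simpa [Function.comp_def, sub_eq_add_neg] using this
    exact hL.locallyIntegrable.integrable_smul_left_of_hasCompactSupport h1 h2
  have shift : ∀ s : ℝ, ∫ u, χ (u - s) * L u = ∫ v, χ v * L (v + s) := by
    intro s
    rw [← integral_sub_right_eq_self (fun v => χ v * L (v + s)) s]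
    simp
  have key2 : ∀ s : ℝ, Integrable (fun u => χ u * L (u + s)) := by
    intro s
    have hm : Monotone (fun u => L (u + s)) := fun a b hab => hL (by linarith)
    exact hm.locallyIntegrable.integrable_smul_left_of_hasCompactSupport hc hs
  have e : ∫ u, (χ (u - s₂) - χ (u - s₁)) * L u
      = (∫ v, χ v * L (v + s₂)) - ∫ v, χ v * L (v + s₁) := by
    rw [← shift, ← shift, ← integral_sub (key _) (key _)]
    congr 1
    ext u
    ring
  rw [e, sub_nonneg]
  apply integral_mono (key2 _) (key2 _)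
  intro v
  exact mul_le_mul_of_nonneg_left (hL (by linarith)) (h0 v)

/-- Radial lemma. -/
theorem radial {φ : ℝ → ℝ} (hφ : IsTest φ) (c : ℝ) {K : ℝ → ℝ} (hK : MonotoneOn K (Ici 0))
    (hK0 : ∀ x, 0 ≤ x → 0 ≤ K x) :
    0 ≤ ∫ R in Ioi (0 : ℝ), R * (K R * φ (R ^ 2 + c)) := by
  obtain ⟨χ, s₁, s₂, hχ, hs, h0, hle, rfl⟩ := hφ
  have hinj : InjOn (fun R : ℝ => R ^ 2) (Ioi 0) := by
    intro a ha b hb hab
    exact (pow_left_inj₀ (le_of_lt ha) (le_of_lt hb) two_ne_zero).1 hab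
  have himg : (fun R : ℝ => R ^ 2) '' (Ioi 0) = Ioi 0 := by
    ext u
    constructor
    · rintro ⟨R, hR, rfl⟩
      exact pow_pos (show (0 : ℝ) < R from hR) 2
    · intro hu
      exact ⟨Real.sqrt u, Real.sqrt_pos.2 hu, Real.sq_sqrt (le_of_lt hu)⟩
  have hcov := integral_image_eq_integral_abs_deriv_smul (s := Ioi (0 : ℝ)) measurableSet_Ioi
    (f := fun R : ℝ => R ^ 2) (f' := fun R => 2 * R)
    (fun x _ => by simpa using (hasDerivAt_pow 2 x).hasDerivWithinAt) hinj
    (fun u => (χ (u + c - s₂) - χ (u + c - s₁)) * K (Real.sqrt u))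
  rw [himg] at hcov
  have e1 : ∫ R in Ioi (0 : ℝ), R * (K R * (χ (R ^ 2 + c - s₂) - χ (R ^ 2 + c - s₁)))
      = (1 / 2) * ∫ u in Ioi (0 : ℝ), (χ (u + c - s₂) - χ (u + c - s₁)) * K (Real.sqrt u) := by
    rw [hcov, ← integral_const_mul]
    apply setIntegral_congr_fun measurableSet_Ioi
    intro R hR
    have hR' : (0 : ℝ) < R := hR
    simp only [smul_eq_mul]
    rw [Real.sqrt_sq hR'.le, abs_of_pos (by positivity)]
    ring
  show 0 ≤ ∫ R in Ioi (0 : ℝ), R * (K R * (χ (R ^ 2 + c - s₂) - χ (R ^ 2 + c - s₁)))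
  rw [e1]
  apply mul_nonneg (by norm_num)
  set L : ℝ → ℝ := fun u => if 0 < u then K (Real.sqrt u) else 0 with hLdef
  have hL : Monotone L := by
    intro a b hab
    simp only [hLdef]
    split_ifs with h1 h2 h2
    · exact hK (Real.sqrt_nonneg a) (Real.sqrt_nonneg b) (Real.sqrt_le_sqrt hab)
    · linarith
    · exact hK0 _ (Real.sqrt_nonneg b)
    · exact le_refl _
  have e2 : ∫ u in Ioi (0 : ℝ), (χ (u + c - s₂) - χ (u + c - s₁)) * K (Real.sqrt u)
      = ∫ u, (χ (u - (s₂ - c)) - χ (u - (s₁ - c))) * L u := by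
    rw [← integral_indicator measurableSet_Ioi]
    congr 1
    ext u
    by_cases hu : 0 < u
    · have hu' : u ∈ Ioi (0 : ℝ) := hu
      rw [indicator_of_mem hu']
      simp only [hLdef, if_pos hu]
      congr 3 <;> ring
    · have hu' : u ∉ Ioi (0 : ℝ) := hu
      rw [indicator_of_notMem hu']
      simp [hLdef, if_neg hu]
  rw [e2]
  exact one_dim hχ.continuous hs h0 (by linarith) hL

/-- Polar coordinates: nonnegativity along rays is enough. -/
theorem polar_nonneg (f : ℝ × ℝ → ℝ)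
    (h : ∀ t : ℝ, 0 ≤ ∫ R in Ioi (0 : ℝ), R * f (R * Real.cos t, R * Real.sin t)) :
    0 ≤ ∫ p, f p := by
  rw [← integral_comp_polarCoord_symm]
  have ht : polarCoord.target = Ioi (0 : ℝ) ×ˢ Ioo (-Real.pi) Real.pi := rfl
  rw [ht, Measure.volume_eq_prod, ← Measure.prod_restrict]
  by_cases hint : Integrable (fun p : ℝ × ℝ => p.1 • f (polarCoord.symm p))
      ((volume.restrict (Ioi (0 : ℝ))).prod (volume.restrict (Ioo (-Real.pi) Real.pi)))
  · rw [integral_prod_symm _ hint]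
    apply integral_nonneg
    intro t
    exact h t
  · rw [integral_undef hint]

theorem isTest_continuous {φ : ℝ → ℝ} (hφ : IsTest φ) : Continuous φ := by
  obtain ⟨χ, s₁, s₂, hχ, hs, h0, hle, rfl⟩ := hφ
  have := hχ.continuous
  fun_prop

theorem isTest_zero {φ : ℝ → ℝ} (hφ : IsTest φ) : ∃ M : ℝ, ∀ m, M < m → φ m = 0 := by
  obtain ⟨χ, s₁, s₂, hχ, hs, h0, hle, rfl⟩ := hφ
  obtain ⟨M, hM⟩ := hs.isCompact.isBounded.subset_closedBall (0 : ℝ)
  have hz : ∀ x, M < x → χ x = 0 := by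
    intro x hx
    by_contra hne
    have := hM (subset_tsupport _ hne)
    rw [mem_closedBall, dist_zero_right, Real.norm_eq_abs] at this
    linarith [le_abs_self x]
  refine ⟨M + |s₁| + |s₂|, fun m hm => ?_⟩
  have h1 := le_abs_self s₁
  have h2 := le_abs_self s₂
  have h3 := abs_nonneg s₁
  have h4 := abs_nonneg s₂
  simp only
  rw [hz (m - s₂) (by linarith), hz (m - s₁) (by linarith), sub_zero]

/-- A continuous function which vanishes outside a bounded set is integrable (plane version). -/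
theorem integrable_plane {φ : ℝ → ℝ} (hφ : IsTest φ) (c : ℝ) {k : ℝ → ℝ} (hk : Continuous k) :
    Integrable (fun p : ℝ × ℝ => k p.1 * φ (p.1 ^ 2 + p.2 ^ 2 + c)) := by
  have hc := isTest_continuous hφ
  obtain ⟨M, hM⟩ := isTest_zero hφ
  apply Continuous.integrable_of_hasCompactSupport
  · fun_prop
  · apply HasCompactSupport.of_support_subset_isCompact
      (K := closedBall (0 : ℝ × ℝ) (1 + |M| + |c|)) (isCompact_closedBall _ _)
    intro p hp
    by_contra hne
    apply hp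
    have hb : M < p.1 ^ 2 + p.2 ^ 2 + c := by
      rw [mem_closedBall, dist_zero_right, Prod.norm_def, not_le, lt_max_iff] at hne
      have h1 := le_abs_self M
      have h2 := neg_abs_le c
      have h3 := abs_nonneg M
      have h4 := abs_nonneg c
      have key : ∀ x : ℝ, 1 + |M| + |c| < ‖x‖ → |M| + |c| < x ^ 2 := by
        intro x hx
        rw [Real.norm_eq_abs] at hx
        rw [← sq_abs x]
        nlinarith
      rcases hne with h | h
      · nlinarith [key _ h, sq_nonneg p.2]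
      · nlinarith [key _ h, sq_nonneg p.1]
    simp only [hM _ hb, mul_zero]

theorem even_mono (m : ℝ) {x y : ℝ} (hx : 0 ≤ x) (hxy : x ≤ y) :
    max (x - m) 0 + max (-x - m) 0 ≤ max (y - m) 0 + max (-y - m) 0 := by
  rcases le_total (x - m) 0 with h3 | h3 <;> rcases le_total (-x - m) 0 with h4 | h4 <;>
  rcases le_total (y - m) 0 with h5 | h5 <;> rcases le_total (-y - m) 0 with h6 | h6 <;>
  simp only [max_eq_left, max_eq_right, h3, h4, h5, h6] <;> linarith

/-- Plane lemma. -/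
theorem plane {φ : ℝ → ℝ} (hφ : IsTest φ) (c m : ℝ) :
    0 ≤ ∫ p : ℝ × ℝ, max (p.1 - m) 0 * φ (p.1 ^ 2 + p.2 ^ 2 + c) := by
  have hi1 := integrable_plane hφ c (k := fun x => max (x - m) 0) (by fun_prop)
  have hi2 := integrable_plane hφ c (k := fun x => max (-x - m) 0) (by fun_prop)
  have hsym : ∫ p : ℝ × ℝ, max (p.1 - m) 0 * φ (p.1 ^ 2 + p.2 ^ 2 + c)
      = ∫ p : ℝ × ℝ, max (-p.1 - m) 0 * φ (p.1 ^ 2 + p.2 ^ 2 + c) := by
    rw [← integral_neg_eq_self (fun p : ℝ × ℝ => max (p.1 - m) 0 * φ (p.1 ^ 2 + p.2 ^ 2 + c))]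
    simp
  have hsum : ∫ p : ℝ × ℝ, max (p.1 - m) 0 * φ (p.1 ^ 2 + p.2 ^ 2 + c)
      = (1 / 2) * ∫ p : ℝ × ℝ, (max (p.1 - m) 0 + max (-p.1 - m) 0) *
          φ (p.1 ^ 2 + p.2 ^ 2 + c) := by
    have : ∫ p : ℝ × ℝ, (max (p.1 - m) 0 + max (-p.1 - m) 0) * φ (p.1 ^ 2 + p.2 ^ 2 + c)
        = (∫ p : ℝ × ℝ, max (p.1 - m) 0 * φ (p.1 ^ 2 + p.2 ^ 2 + c))
          + ∫ p : ℝ × ℝ, max (-p.1 - m) 0 * φ (p.1 ^ 2 + p.2 ^ 2 + c) := by
      rw [← integral_add hi1 hi2]
      congr 1
      ext p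
      ring
    rw [this, ← hsym]
    ring
  rw [hsum]
  apply mul_nonneg (by norm_num)
  apply polar_nonneg
  intro t
  set K : ℝ → ℝ := fun R => max (R * |Real.cos t| - m) 0 + max (-(R * |Real.cos t|) - m) 0 with hK
  have hKm : MonotoneOn K (Ici 0) := by
    intro a ha b hb hab
    have ha' : (0 : ℝ) ≤ a := ha
    have h1 : a * |Real.cos t| ≤ b * |Real.cos t| :=
      mul_le_mul_of_nonneg_right hab (abs_nonneg _)
    have h2 : 0 ≤ a * |Real.cos t| := mul_nonneg ha' (abs_nonneg _)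
    exact even_mono m h2 h1
  have hK0 : ∀ x, 0 ≤ x → 0 ≤ K x := by
    intro x _
    simp only [hK]
    positivity
  have hr := radial hφ c hKm hK0
  have e : ∀ R : ℝ, R * ((max (R * Real.cos t - m) 0 + max (-(R * Real.cos t) - m) 0) *
      φ ((R * Real.cos t) ^ 2 + (R * Real.sin t) ^ 2 + c)) = R * (K R * φ (R ^ 2 + c)) := by
    intro R
    have e1 : (R * Real.cos t) ^ 2 + (R * Real.sin t) ^ 2 + c = R ^ 2 + c := by
      have := Real.sin_sq_add_cos_sq t
      linear_combination R ^ 2 * this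
    rw [e1]
    congr 2
    simp only [hK]
    rcases abs_cases (Real.cos t) with ⟨h, _⟩ | ⟨h, _⟩
    · rw [h]
    · rw [h]
      rw [show R * -Real.cos t = -(R * Real.cos t) by ring, neg_neg, add_comm]
  simp only [e]
  exact hr

/-- Ray lemma. -/
theorem ray {φ : ℝ → ℝ} (hφ : IsTest φ) {A : ℝ} (hA : 0 < A) (B C : ℝ) :
    0 ≤ ∫ ρ in Ioi (0 : ℝ), ρ * ∫ z, φ (A * ρ ^ 2 + 2 * B * ρ + C + z ^ 2) := by
  set a : ℝ := Real.sqrt A with ha
  have hapos : 0 < a := Real.sqrt_pos.2 hA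
  have ha2 : a ^ 2 = A := Real.sq_sqrt hA.le
  set m : ℝ := B / a with hm
  have hma : m * a = B := by rw [hm]; field_simp
  set c : ℝ := C - m ^ 2 with hcdef
  set F : ℝ → ℝ := fun x => ∫ z, φ (x ^ 2 + z ^ 2 + c) with hF
  have e1 : ∫ ρ in Ioi (0 : ℝ), ρ * ∫ z, φ (A * ρ ^ 2 + 2 * B * ρ + C + z ^ 2)
      = ∫ ρ, max ρ 0 * F (a * ρ + m) := by
    rw [← integral_indicator measurableSet_Ioi]
    congr 1
    ext ρ
    by_cases h : 0 < ρ
    · have h' : ρ ∈ Ioi (0 : ℝ) := h
      rw [indicator_of_mem h', max_eq_left h.le]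
      congr 1
      simp only [hF]
      congr 1
      ext z
      congr 1
      rw [hcdef, ← ha2, ← hma]
      ring
    · have h' : ρ ∉ Ioi (0 : ℝ) := h
      rw [indicator_of_notMem h', max_eq_right (not_lt.1 h), zero_mul]
  have e2 : ∫ ρ, max ρ 0 * F (a * ρ + m) = (1 / a ^ 2) * ∫ x, max (x - m) 0 * F x := by
    have h1 := Measure.integral_comp_mul_left (fun y => max (y / a) 0 * F (y + m)) a
    have h2 : ∀ ρ : ℝ, max (a * ρ / a) 0 * F (a * ρ + m) = max ρ 0 * F (a * ρ + m) := by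
      intro ρ
      rw [mul_div_cancel_left₀ _ hapos.ne']
    simp only [h2] at h1
    rw [h1]
    have h3 := integral_sub_right_eq_self (μ := volume) (fun y => max (y / a) 0 * F (y + m)) m
    rw [← h3]
    simp only [sub_add_cancel, smul_eq_mul]
    rw [← integral_const_mul, ← integral_const_mul]
    congr 1
    ext x
    have h4 : max ((x - m) / a) 0 = max (x - m) 0 / a := by
      rcases le_total (x - m) 0 with h | h
      · rw [max_eq_right h, max_eq_right (div_nonpos_of_nonpos_of_nonneg h hapos.le), zero_div]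
      · rw [max_eq_left h, max_eq_left (div_nonneg h hapos.le)]
    rw [h4, abs_of_pos (inv_pos.2 hapos)]
    field_simp
  have e3 : ∫ x, max (x - m) 0 * F x
      = ∫ p : ℝ × ℝ, max (p.1 - m) 0 * φ (p.1 ^ 2 + p.2 ^ 2 + c) := by
    rw [Measure.volume_eq_prod, integral_prod _
      (by rw [← Measure.volume_eq_prod]
          exact integrable_plane hφ c (k := fun x => max (x - m) 0) (by fun_prop))]
    congr 1
    ext x
    simp only [hF]
    rw [integral_const_mul]
  rw [e1, e2, e3]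
  exact mul_nonneg (by positivity) (plane hφ c m)

theorem integrable_space {φ : ℝ → ℝ} (hφ : IsTest φ) (τ₀ τ₁ τ₂ : ℝ) :
    Integrable (fun w : ℝ × ℝ × ℝ =>
      φ (w.1 ^ 2 + w.2.1 ^ 2 + (τ₀ + τ₁ * w.1 + τ₂ * w.2.1) ^ 2 + w.2.2 ^ 2)) := by
  have hc := isTest_continuous hφ
  obtain ⟨M, hM⟩ := isTest_zero hφ
  apply Continuous.integrable_of_hasCompactSupport
  · fun_prop
  · apply HasCompactSupport.of_support_subset_isCompact
      (K := closedBall (0 : ℝ × ℝ × ℝ) (1 + |M|)) (isCompact_closedBall _ _)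
    intro p hp
    by_contra hne
    apply hp
    have hb : M < p.1 ^ 2 + p.2.1 ^ 2 + (τ₀ + τ₁ * p.1 + τ₂ * p.2.1) ^ 2 + p.2.2 ^ 2 := by
      rw [mem_closedBall, dist_zero_right, Prod.norm_def, Prod.norm_def, not_le, lt_max_iff,
        lt_max_iff] at hne
      have h1 := le_abs_self M
      have h3 := abs_nonneg M
      have key : ∀ x : ℝ, 1 + |M| < ‖x‖ → |M| < x ^ 2 := by
        intro x hx
        rw [Real.norm_eq_abs] at hx
        rw [← sq_abs x]
        nlinarith
      have h5 := sq_nonneg p.1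
      have h6 := sq_nonneg p.2.1
      have h7 := sq_nonneg p.2.2
      have h8 := sq_nonneg (τ₀ + τ₁ * p.1 + τ₂ * p.2.1)
      rcases hne with h | h | h
      · linarith [key _ h]
      · linarith [key _ h]
      · linarith [key _ h]
    simp only [hM _ hb]

/-- Packet W. -/
theorem statementW : StatementW := by
  intro φ hφ a3 b3 a4 b4 τ₀ τ₁ τ₂ hdet
  -- the vertex of the wedge
  obtain ⟨u0, v0, h3, h4⟩ : ∃ u0 v0 : ℝ, 2 * (u0 * a3 + v0 * b3) = a3 ^ 2 + b3 ^ 2 ∧
      2 * (u0 * a4 + v0 * b4) = a4 ^ 2 + b4 ^ 2 := by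
    refine ⟨((a3 ^ 2 + b3 ^ 2) * b4 - (a4 ^ 2 + b4 ^ 2) * b3) / (2 * (a3 * b4 - a4 * b3)),
      ((a4 ^ 2 + b4 ^ 2) * a3 - (a3 ^ 2 + b3 ^ 2) * a4) / (2 * (a3 * b4 - a4 * b3)), ?_, ?_⟩
    · generalize hd : a3 * b4 - a4 * b3 = d at *
      rw [div_mul_eq_mul_div, div_mul_eq_mul_div, ← add_div, ← mul_div_assoc,
        div_eq_iff (mul_ne_zero two_ne_zero hdet), ← hd]
      ring
    · generalize hd : a3 * b4 - a4 * b3 = d at *
      rw [div_mul_eq_mul_div, div_mul_eq_mul_div, ← add_div, ← mul_div_assoc,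
        div_eq_iff (mul_ne_zero two_ne_zero hdet), ← hd]
      ring
  have hwm : MeasurableSet (wedge a3 b3 a4 b4) := by
    unfold wedge
    apply MeasurableSet.inter
    · exact measurableSet_lt (f := fun w : ℝ × ℝ × ℝ => 2 * (w.1 * a3 + w.2.1 * b3))
        (g := fun _ => a3 ^ 2 + b3 ^ 2) (by fun_prop) (by fun_prop)
    · exact measurableSet_lt (f := fun w : ℝ × ℝ × ℝ => 2 * (w.1 * a4 + w.2.1 * b4))
        (g := fun _ => a4 ^ 2 + b4 ^ 2) (by fun_prop) (by fun_prop)
  set G : ℝ × ℝ × ℝ → ℝ := fun w =>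
    φ (w.1 ^ 2 + w.2.1 ^ 2 + (τ₀ + τ₁ * w.1 + τ₂ * w.2.1) ^ 2 + w.2.2 ^ 2) with hG
  have hGi : Integrable G := integrable_space hφ τ₀ τ₁ τ₂
  change 0 ≤ ∫ w in wedge a3 b3 a4 b4, G w
  rw [← integral_indicator hwm]
  have hIi : Integrable ((wedge a3 b3 a4 b4).indicator G) := hGi.indicator hwm
  -- regroup
  have e := (volume_preserving_prodAssoc (α₁ := ℝ) (β₁ := ℝ) (γ₁ := ℝ)).integral_comp'
    ((wedge a3 b3 a4 b4).indicator G)
  rw [← e]
  have hi3 : Integrable (fun w : (ℝ × ℝ) × ℝ => (wedge a3 b3 a4 b4).indicator G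
      (MeasurableEquiv.prodAssoc w)) := by
    exact (volume_preserving_prodAssoc (α₁ := ℝ) (β₁ := ℝ) (γ₁ := ℝ)).integrable_comp_emb
      (MeasurableEquiv.measurableEmbedding _) |>.2 hIi
  rw [Measure.volume_eq_prod, integral_prod _ (by rw [← Measure.volume_eq_prod]; exact hi3)]
  rw [← integral_add_right_eq_self _ ((u0, v0) : ℝ × ℝ)]
  apply polar_nonneg
  intro t
  by_cases hdir : Real.cos t * a3 + Real.sin t * b3 < 0 ∧ Real.cos t * a4 + Real.sin t * b4 < 0
  · set A : ℝ := 1 + (τ₁ * Real.cos t + τ₂ * Real.sin t) ^ 2 with hA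
    have hApos : 0 < A := by positivity
    set B : ℝ := u0 * Real.cos t + v0 * Real.sin t +
      (τ₀ + τ₁ * u0 + τ₂ * v0) * (τ₁ * Real.cos t + τ₂ * Real.sin t) with hB
    set C : ℝ := u0 ^ 2 + v0 ^ 2 + (τ₀ + τ₁ * u0 + τ₂ * v0) ^ 2 with hC
    have hr := ray hφ hApos B C
    have e2 : ∫ ρ in Ioi (0 : ℝ), ρ * ∫ z, φ (A * ρ ^ 2 + 2 * B * ρ + C + z ^ 2)
        = ∫ R in Ioi (0 : ℝ), R * ∫ z, (wedge a3 b3 a4 b4).indicator G
          (MeasurableEquiv.prodAssoc ((R * Real.cos t, R * Real.sin t) + (u0, v0), z)) := by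
      apply setIntegral_congr_fun measurableSet_Ioi
      intro R hR
      have hR' : (0 : ℝ) < R := hR
      simp only
      congr 1
      congr 1
      ext z
      have hmem : (MeasurableEquiv.prodAssoc ((R * Real.cos t, R * Real.sin t) + (u0, v0), z)
          : ℝ × ℝ × ℝ) ∈ wedge a3 b3 a4 b4 := by
        constructor
        · show 2 * ((R * Real.cos t + u0) * a3 + (R * Real.sin t + v0) * b3) < a3 ^ 2 + b3 ^ 2
          nlinarith [mul_pos_of_neg_of_neg (neg_lt_zero.2 hR') hdir.1]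
        · show 2 * ((R * Real.cos t + u0) * a4 + (R * Real.sin t + v0) * b4) < a4 ^ 2 + b4 ^ 2
          nlinarith [mul_pos_of_neg_of_neg (neg_lt_zero.2 hR') hdir.2]
      rw [indicator_of_mem hmem]
      show φ _ = φ _
      congr 1
      show A * R ^ 2 + 2 * B * R + C + z ^ 2 = (R * Real.cos t + u0) ^ 2 +
        (R * Real.sin t + v0) ^ 2 + (τ₀ + τ₁ * (R * Real.cos t + u0) +
          τ₂ * (R * Real.sin t + v0)) ^ 2 + z ^ 2
      rw [hA, hB, hC]
      have := Real.sin_sq_add_cos_sq t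
      linear_combination (-R ^ 2) * this
    rw [e2] at hr
    exact hr
  · apply le_of_eq
    symm
    apply setIntegral_eq_zero_of_forall_eq_zero
    intro R hR
    have hR' : (0 : ℝ) < R := hR
    have : ∀ z : ℝ, (wedge a3 b3 a4 b4).indicator G
          (MeasurableEquiv.prodAssoc ((R * Real.cos t, R * Real.sin t) + (u0, v0), z)) = 0 := by
      intro z
      apply indicator_of_notMem
      rintro ⟨h5, h6⟩
      apply hdir
      have h5' : 2 * ((R * Real.cos t + u0) * a3 + (R * Real.sin t + v0) * b3) < a3 ^ 2 + b3 ^ 2 :=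
        h5
      have h6' : 2 * ((R * Real.cos t + u0) * a4 + (R * Real.sin t + v0) * b4) < a4 ^ 2 + b4 ^ 2 :=
        h6
      constructor
      · by_contra hcon
        have := mul_nonneg hR'.le (not_lt.1 hcon)
        nlinarith
      · by_contra hcon
        have := mul_nonneg hR'.le (not_lt.1 hcon)
        nlinarith
    simp only [this, integral_zero, mul_zero]

end Pool.Agent.Helper96.Disk
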